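import Mathlib

/-! MP_a35cac_co: spin models in Bose-Mesner algebras; definitions. -/

set_option autoImplicit false

open Matrix

namespace R556.SM

/-- A symmetric association scheme with `d` classes on `X`; the pair `(x, y)` lies in the relation
`R_i` iff `rel x y = i`. -/
structure Scheme (X : Type) (d : ℕ) where
  rel : X → X → Fin (d + 1)
  nonempty : ∀ i, ∃ x y, rel x y = i
  diag : ∀ x y, rel x y = 0 ↔ x = y
  symm : ∀ x y, rel x y = rel y x
  p : Fin (d + 1) → Fin (d + 1) → Fin (d + 1) → ℕ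
  card : ∀ i j x y, Nat.card {z : X // rel x z = i ∧ rel z y = j} = p i j (rel x y)

variable {X : Type} {d : ℕ}

/-- The adjacency matrix `A_i`. -/
def Scheme.A (S : Scheme X d) (i : Fin (d + 1)) : Matrix X X ℂ :=
  fun x y => if S.rel x y = i then 1 else 0

/-- The Bose-Mesner algebra (as a space of matrices). -/
def Scheme.BM (S : Scheme X d) : Submodule ℂ (Matrix X X ℂ) :=
  Submodule.span ℂ (Set.range S.A)

/-- The all-ones matrix. -/
def allOnes (X : Type) : Matrix X X ℂ := fun _ _ => 1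

/-- `E_0, ..., E_d` are the primitive idempotents of the Bose-Mesner algebra. -/
def PrimIdem [Fintype X] [DecidableEq X] (S : Scheme X d) (E : Fin (d + 1) → Matrix X X ℂ) : Prop :=
  (∀ i, E i ∈ S.BM) ∧ (∀ i, E i ≠ 0) ∧ (∀ i, E i * E i = E i) ∧ (∀ i j, i ≠ j → E i * E j = 0) ∧
    ∑ i, E i = 1

/-- Formal self-duality: for some orders of the `A_i` (with `A_0 = I`) and of the `E_i` (with
`E_0 = J / |X|`) one has `P = Q`. -/
def FormallySelfDual [Fintype X] [DecidableEq X] (S : Scheme X d) : Prop :=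
  ∃ (σ : Equiv.Perm (Fin (d + 1))) (E : Fin (d + 1) → Matrix X X ℂ)
    (P : Fin (d + 1) → Fin (d + 1) → ℂ), σ 0 = 0 ∧ PrimIdem S E ∧
    E 0 = ((Fintype.card X : ℂ)⁻¹) • allOnes X ∧
    (∀ i, S.A (σ i) = ∑ j, P j i • E j) ∧
    ∀ i, E i = ((Fintype.card X : ℂ)⁻¹) • ∑ j, P j i • S.A (σ j)

/-- The tensor `Δ(L, M, N)`. -/
def Delta (L M N : Matrix X X ℂ) : X → X → X → ℂ := fun x y z => L x z * M x y * N y z

/-- The tensor `Y(L, M, N)`. -/
noncomputable def Y [Fintype X] (L M N : Matrix X X ℂ) : X → X → X → ℂ :=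
  fun x y z => ∑ u, L x u * M y u * N z u

/-- The span of the tensors `Δ(L, M, N)`. -/
def DeltaSpan (S : Scheme X d) : Submodule ℂ (X → X → X → ℂ) :=
  Submodule.span ℂ {t | ∃ L ∈ S.BM, ∃ M ∈ S.BM, ∃ N ∈ S.BM, t = Delta L M N}

/-- The span of the tensors `Y(L, M, N)`. -/
noncomputable def YSpan [Fintype X] (S : Scheme X d) : Submodule ℂ (X → X → X → ℂ) :=
  Submodule.span ℂ {t | ∃ L ∈ S.BM, ∃ M ∈ S.BM, ∃ N ∈ S.BM, t = Y L M N}

/-- Exact triple regularity. -/
def ExactlyTriplyRegular [Fintype X] (S : Scheme X d) : Prop := DeltaSpan S = YSpan S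

/-- Spin models. -/
def IsSpinModel [Fintype X] [DecidableEq X] (W : Matrix X X ℂ) : Prop :=
  (∀ a b, W a b = W b a) ∧ (∀ a b, W a b ≠ 0) ∧
    (∀ a b, ∑ x, W a x / W b x = if a = b then (Fintype.card X : ℂ) else 0) ∧
    ∃ D : ℂ, D ^ 2 = Fintype.card X ∧
      ∀ a b c, ∑ x, W a x * W b x / W c x = D * (W a b / (W a c * W b c))

end R556.SM
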