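import Pool.Agent.R556.SM.Wreath

/-! MP_a35cac_co: formal self-duality and exact triple regularity of `K_a ≀ K_a`, and its spin
models. -/

set_option autoImplicit false

open Matrix

namespace R556.SM

variable (a : ℕ)

/-- primitive idempotents -/
noncomputable def wE (i : Fin 3) : Matrix (Pt a) (Pt a) ℂ :=
  ![((a : ℂ) * a)⁻¹ • allOnes (Pt a), (a : ℂ)⁻¹ • Bm a - ((a : ℂ) * a)⁻¹ • allOnes (Pt a),
    1 - (a : ℂ)⁻¹ • Bm a] i

/-- the eigenmatrix -/
noncomputable def wP : Fin 3 → Fin 3 → ℂ :=
  ![![1, a - 1, a * a - a], ![1, a - 1, -a], ![1, -1, 0]]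

theorem wreath_selfDual (ha : 2 ≤ a) : FormallySelfDual (wreath a ha) := by
  have ha0 : (a : ℂ) ≠ 0 := by
    have : a ≠ 0 := by omega
    exact_mod_cast this
  have hcard : (Fintype.card (Pt a) : ℂ) = a * a := by
    simp [Fintype.card_prod]
  have h01 : (⟨0, by omega⟩ : Fin a) ≠ ⟨1, by omega⟩ := by simp
  refine ⟨1, wE a, wP a, rfl, ⟨?_, ?_, ?_, ?_, ?_⟩, ?_, ?_, ?_⟩
  · intro i
    rw [wreath_BM]
    fin_cases i
    · exact Submodule.smul_mem _ _ (J_mem a)
    · exact Submodule.sub_mem _ (Submodule.smul_mem _ _ (B_mem a)) (Submodule.smul_mem _ _ (J_mem a))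
    · exact Submodule.sub_mem _ (one_mem a) (Submodule.smul_mem _ _ (B_mem a))
  · intro i
    fin_cases i
    · intro h
      have := congrFun (congrFun h (⟨0, by omega⟩, ⟨0, by omega⟩)) (⟨0, by omega⟩, ⟨0, by omega⟩)
      simp [wE, allOnes, ha0] at this
    · intro h
      have := congrFun (congrFun h (⟨0, by omega⟩, ⟨0, by omega⟩)) (⟨1, by omega⟩, ⟨0, by omega⟩)
      simp [wE, allOnes, Bm, ha0] at this
    · intro h
      have := congrFun (congrFun h (⟨0, by omega⟩, ⟨0, by omega⟩)) (⟨0, by omega⟩, ⟨1, by omega⟩)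
      simp [wE, Bm, ha0] at this
  · intro i
    fin_cases i
    · show (((a : ℂ) * a)⁻¹ • allOnes (Pt a)) * (((a : ℂ) * a)⁻¹ • allOnes (Pt a)) =
        ((a : ℂ) * a)⁻¹ • allOnes (Pt a)
      rw [Matrix.smul_mul, Matrix.mul_smul, JJ, smul_smul, smul_smul]
      congr 1
      field_simp
    · show ((a : ℂ)⁻¹ • Bm a - ((a : ℂ) * a)⁻¹ • allOnes (Pt a)) *
        ((a : ℂ)⁻¹ • Bm a - ((a : ℂ) * a)⁻¹ • allOnes (Pt a)) =
        (a : ℂ)⁻¹ • Bm a - ((a : ℂ) * a)⁻¹ • allOnes (Pt a)
      simp only [sub_mul, mul_sub, Matrix.smul_mul, Matrix.mul_smul, BB, BJ, JB, JJ, smul_smul]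
      have e1 : (a : ℂ)⁻¹ * ((a : ℂ)⁻¹ * a) = (a : ℂ)⁻¹ := by field_simp
      have e2 : (a : ℂ)⁻¹ * (((a : ℂ) * a)⁻¹ * a) = ((a : ℂ) * a)⁻¹ := by field_simp
      have e3 : ((a : ℂ) * a)⁻¹ * ((a : ℂ)⁻¹ * a) = ((a : ℂ) * a)⁻¹ := by field_simp
      have e4 : ((a : ℂ) * a)⁻¹ * (((a : ℂ) * a)⁻¹ * (a * a)) = ((a : ℂ) * a)⁻¹ := by field_simp
      rw [e1, e2, e3, e4]
      abel
    · show (1 - (a : ℂ)⁻¹ • Bm a) * (1 - (a : ℂ)⁻¹ • Bm a) = 1 - (a : ℂ)⁻¹ • Bm a
      simp only [sub_mul, mul_sub, Matrix.smul_mul, Matrix.mul_smul, BB, smul_smul, one_mul, mul_one]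
      have e1 : (a : ℂ)⁻¹ * ((a : ℂ)⁻¹ * a) = (a : ℂ)⁻¹ := by field_simp
      rw [e1]
      abel
  · have k01 : wE a 0 * wE a 1 = 0 := by
      show (((a : ℂ) * a)⁻¹ • allOnes (Pt a)) * ((a : ℂ)⁻¹ • Bm a - ((a : ℂ) * a)⁻¹ • allOnes (Pt a)) = 0
      simp only [mul_sub, Matrix.smul_mul, Matrix.mul_smul, JB, JJ, smul_smul]
      rw [← sub_smul]
      have : (a : ℂ)⁻¹ * (((a : ℂ) * a)⁻¹ * a) - ((a : ℂ) * a)⁻¹ * (((a : ℂ) * a)⁻¹ * (a * a)) = 0 := by
        field_simp; ring
      rw [this, zero_smul]
    have k10 : wE a 1 * wE a 0 = 0 := by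
      show ((a : ℂ)⁻¹ • Bm a - ((a : ℂ) * a)⁻¹ • allOnes (Pt a)) * (((a : ℂ) * a)⁻¹ • allOnes (Pt a)) = 0
      simp only [sub_mul, Matrix.smul_mul, Matrix.mul_smul, BJ, JJ, smul_smul]
      rw [← sub_smul]
      have : ∀ p q : ℂ, p = q → (p - q) • allOnes (Pt a) = 0 := by
        intro p q h; rw [h, sub_self, zero_smul]
      apply this
      field_simp
    have k02 : wE a 0 * wE a 2 = 0 := by
      show (((a : ℂ) * a)⁻¹ • allOnes (Pt a)) * (1 - (a : ℂ)⁻¹ • Bm a) = 0
      simp only [mul_sub, Matrix.smul_mul, Matrix.mul_smul, JB, smul_smul, mul_one]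
      rw [← sub_smul]
      have : ∀ p q : ℂ, p = q → (p - q) • allOnes (Pt a) = 0 := by
        intro p q h; rw [h, sub_self, zero_smul]
      apply this
      field_simp
    have k20 : wE a 2 * wE a 0 = 0 := by
      show (1 - (a : ℂ)⁻¹ • Bm a) * (((a : ℂ) * a)⁻¹ • allOnes (Pt a)) = 0
      simp only [sub_mul, Matrix.smul_mul, Matrix.mul_smul, BJ, smul_smul, one_mul]
      rw [← sub_smul]
      have : ∀ p q : ℂ, p = q → (p - q) • allOnes (Pt a) = 0 := by
        intro p q h; rw [h, sub_self, zero_smul]
      apply this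
      field_simp
    have k12 : wE a 1 * wE a 2 = 0 := by
      show ((a : ℂ)⁻¹ • Bm a - ((a : ℂ) * a)⁻¹ • allOnes (Pt a)) * (1 - (a : ℂ)⁻¹ • Bm a) = 0
      simp only [sub_mul, mul_sub, Matrix.smul_mul, Matrix.mul_smul, BB, JB, smul_smul, mul_one]
      have e1 : (a : ℂ)⁻¹ * ((a : ℂ)⁻¹ * a) = (a : ℂ)⁻¹ := by field_simp
      have e2 : (a : ℂ)⁻¹ * (((a : ℂ) * a)⁻¹ * a) = ((a : ℂ) * a)⁻¹ := by field_simp
      have e3 : ((a : ℂ) * a)⁻¹ * ((a : ℂ)⁻¹ * a) = ((a : ℂ) * a)⁻¹ := by field_simp
      simp only [e1, e2, e3, sub_self]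
    have k21 : wE a 2 * wE a 1 = 0 := by
      show (1 - (a : ℂ)⁻¹ • Bm a) * ((a : ℂ)⁻¹ • Bm a - ((a : ℂ) * a)⁻¹ • allOnes (Pt a)) = 0
      simp only [sub_mul, mul_sub, Matrix.smul_mul, Matrix.mul_smul, BB, BJ, smul_smul, one_mul]
      have e1 : (a : ℂ)⁻¹ * ((a : ℂ)⁻¹ * a) = (a : ℂ)⁻¹ := by field_simp
      have e2 : (a : ℂ)⁻¹ * (((a : ℂ) * a)⁻¹ * a) = ((a : ℂ) * a)⁻¹ := by field_simp
      have e3 : ((a : ℂ) * a)⁻¹ * ((a : ℂ)⁻¹ * a) = ((a : ℂ) * a)⁻¹ := by field_simp
      simp only [e1, e2, e3, sub_self]
    intro i j hij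
    fin_cases i <;> fin_cases j
    · exact absurd rfl hij
    · exact k01
    · exact k02
    · exact k10
    · exact absurd rfl hij
    · exact k12
    · exact k20
    · exact k21
    · exact absurd rfl hij
  · rw [Fin.sum_univ_three]
    simp only [wE, Matrix.cons_val_zero, Matrix.cons_val_one, Matrix.cons_val]
    abel
  · rw [hcard]
    rfl
  · intro i
    rw [Fin.sum_univ_three]
    fin_cases i
    · show wA a 0 = _
      rw [wA0]
      simp [wP, wE]
    · show wA a 1 = _
      rw [wA1]
      ext x y
      simp [wP, wE, allOnes]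
      by_cases h : x = y
      · subst h
        simp [Bm]
        field_simp; ring
      · by_cases h' : x.1 = y.1
        · simp [Bm, h, h']
          field_simp; ring
        · simp [Bm, h, h']
    · show wA a 2 = _
      rw [wA2]
      ext x y
      simp [wP, wE, allOnes]
      by_cases h : x = y
      · subst h
        simp [Bm]
        field_simp; ring
      · by_cases h' : x.1 = y.1
        · simp [Bm, h, h']
          field_simp; ring
        · simp [Bm, h, h']
          field_simp; ring
  · intro i
    rw [Fin.sum_univ_three, hcard]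
    fin_cases i
    · show _ = ((a : ℂ) * a)⁻¹ • (wP a 0 0 • wA a 0 + wP a 1 0 • wA a 1 + wP a 2 0 • wA a 2)
      rw [wA0, wA1, wA2]
      simp [wP, wE]
    · show _ = ((a : ℂ) * a)⁻¹ • (wP a 0 1 • wA a 0 + wP a 1 1 • wA a 1 + wP a 2 1 • wA a 2)
      rw [wA0, wA1, wA2]
      ext x y
      simp [wP, wE, allOnes]
      by_cases h : x = y
      · subst h
        simp [Bm]
        field_simp
      · by_cases h' : x.1 = y.1
        · simp [Bm, h, h']
          field_simp
        · simp [Bm, h, h']
    · show _ = ((a : ℂ) * a)⁻¹ • (wP a 0 2 • wA a 0 + wP a 1 2 • wA a 1 + wP a 2 2 • wA a 2)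
      rw [wA0, wA1, wA2]
      ext x y
      simp [wP, wE]
      by_cases h : x = y
      · subst h
        simp [Bm]
        field_simp
      · by_cases h' : x.1 = y.1
        · simp [Bm, h, h']
          field_simp
        · simp [Bm, h, h']

/-! exact triple regularity -/

lemma span3 {M : Type} [AddCommGroup M] [Module ℂ M] (u v w : M) {x : M}
    (h : x ∈ Submodule.span ℂ ({u, v, w} : Set M)) : ∃ r s t : ℂ, r • u + s • v + t • w = x :=
  Submodule.mem_span_triple.1 h

/-- a trilinear map takes values in `W` on the span of `I, B, J` if it does so on `I, B, J` -/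
lemma tri_mem {V : Type} [AddCommGroup V] [Module ℂ V]
    (T : Matrix (Pt a) (Pt a) ℂ → Matrix (Pt a) (Pt a) ℂ → Matrix (Pt a) (Pt a) ℂ → V)
    (W : Submodule ℂ V)
    (l1 : ∀ r s t : ℂ, ∀ L L' L'' M N, T (r • L + s • L' + t • L'') M N =
      r • T L M N + s • T L' M N + t • T L'' M N)
    (l2 : ∀ r s t : ℂ, ∀ L M M' M'' N, T L (r • M + s • M' + t • M'') N =
      r • T L M N + s • T L M' N + t • T L M'' N)
    (l3 : ∀ r s t : ℂ, ∀ L M N N' N'', T L M (r • N + s • N' + t • N'') =
      r • T L M N + s • T L M N' + t • T L M N'')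
    (h : ∀ L ∈ ({1, Bm a, allOnes (Pt a)} : Set (Matrix (Pt a) (Pt a) ℂ)),
      ∀ M ∈ ({1, Bm a, allOnes (Pt a)} : Set (Matrix (Pt a) (Pt a) ℂ)),
      ∀ N ∈ ({1, Bm a, allOnes (Pt a)} : Set (Matrix (Pt a) (Pt a) ℂ)), T L M N ∈ W)
    {L M N : Matrix (Pt a) (Pt a) ℂ} (hL : L ∈ BJspan a) (hM : M ∈ BJspan a) (hN : N ∈ BJspan a) :
    T L M N ∈ W := by
  have h3 : ∀ L ∈ ({1, Bm a, allOnes (Pt a)} : Set (Matrix (Pt a) (Pt a) ℂ)),
      ∀ M ∈ ({1, Bm a, allOnes (Pt a)} : Set (Matrix (Pt a) (Pt a) ℂ)), T L M N ∈ W := by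
    intro L hL M hM
    obtain ⟨r, s, t, rfl⟩ := (mem_BJ a).1 hN
    rw [l3]
    exact W.add_mem (W.add_mem (W.smul_mem _ (h L hL M hM _ (by simp)))
      (W.smul_mem _ (h L hL M hM _ (by simp)))) (W.smul_mem _ (h L hL M hM _ (by simp)))
  have h2 : ∀ L ∈ ({1, Bm a, allOnes (Pt a)} : Set (Matrix (Pt a) (Pt a) ℂ)), T L M N ∈ W := by
    intro L hL
    obtain ⟨r, s, t, rfl⟩ := (mem_BJ a).1 hM
    rw [l2]
    exact W.add_mem (W.add_mem (W.smul_mem _ (h3 L hL _ (by simp)))
      (W.smul_mem _ (h3 L hL _ (by simp)))) (W.smul_mem _ (h3 L hL _ (by simp)))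
  obtain ⟨r, s, t, rfl⟩ := (mem_BJ a).1 hL
  rw [l1]
  exact W.add_mem (W.add_mem (W.smul_mem _ (h2 _ (by simp)))
    (W.smul_mem _ (h2 _ (by simp)))) (W.smul_mem _ (h2 _ (by simp)))

lemma idem_entry {M : Matrix (Pt a) (Pt a) ℂ}
    (h : M ∈ ({1, Bm a, allOnes (Pt a)} : Set (Matrix (Pt a) (Pt a) ℂ))) (x y : Pt a) :
    M x y = M y x := by
  rcases h with rfl | rfl | rfl
  · simp only [Matrix.one_apply, eq_comm]
  · exact Bsymm a x y
  · rfl

lemma mem_of_gen {M : Matrix (Pt a) (Pt a) ℂ}
    (h : M ∈ ({1, Bm a, allOnes (Pt a)} : Set (Matrix (Pt a) (Pt a) ℂ))) : M ∈ BJspan a :=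
  Submodule.subset_span h

/-- the entrywise product -/
def had (L M : Matrix (Pt a) (Pt a) ℂ) : Matrix (Pt a) (Pt a) ℂ := fun x y => L x y * M x y

lemma had_mem {L M : Matrix (Pt a) (Pt a) ℂ}
    (hL : L ∈ ({1, Bm a, allOnes (Pt a)} : Set (Matrix (Pt a) (Pt a) ℂ)))
    (hM : M ∈ ({1, Bm a, allOnes (Pt a)} : Set (Matrix (Pt a) (Pt a) ℂ))) :
    had a L M ∈ BJspan a := by
  have hJr : ∀ L : Matrix (Pt a) (Pt a) ℂ, had a L (allOnes (Pt a)) = L := by
    intro L; ext x y; simp [had, allOnes]
  have hJl : ∀ L : Matrix (Pt a) (Pt a) ℂ, had a (allOnes (Pt a)) L = L := by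
    intro L; ext x y; simp [had, allOnes]
  have h11 : had a 1 1 = 1 := by
    ext x y
    by_cases h : x = y
    · subst h; simp [had]
    · simp [had, h]
  have h1B : had a 1 (Bm a) = 1 := by
    ext x y; by_cases h : x = y <;> simp [had, h, Bm]
  have hB1 : had a (Bm a) 1 = 1 := by
    ext x y; by_cases h : x = y <;> simp [had, h, Bm]
  have hBB : had a (Bm a) (Bm a) = Bm a := by
    ext x y; by_cases h : x.1 = y.1 <;> simp [had, h, Bm]
  rcases hL with rfl | rfl | rfl <;> rcases hM with rfl | rfl | rfl
  · rw [h11]; exact one_mem a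
  · rw [h1B]; exact one_mem a
  · rw [hJr]; exact one_mem a
  · rw [hB1]; exact one_mem a
  · rw [hBB]; exact B_mem a
  · rw [hJr]; exact B_mem a
  · rw [hJl]; exact one_mem a
  · rw [hJl]; exact B_mem a
  · rw [hJl]; exact J_mem a

theorem wreath_etr (ha : 2 ≤ a) : ExactlyTriplyRegular (wreath a ha) := by
  have ha0 : (a : ℂ) ≠ 0 := by
    have : a ≠ 0 := by omega
    exact_mod_cast this
  have dmem : ∀ L ∈ BJspan a, ∀ M ∈ BJspan a, ∀ N ∈ BJspan a,
      Delta L M N ∈ DeltaSpan (wreath a ha) := by
    intro L hL M hM N hN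
    rw [← wreath_BM a ha] at hL hM hN
    exact Submodule.subset_span ⟨L, hL, M, hM, N, hN, rfl⟩
  have ymem : ∀ L ∈ BJspan a, ∀ M ∈ BJspan a, ∀ N ∈ BJspan a,
      Y L M N ∈ YSpan (wreath a ha) := by
    intro L hL M hM N hN
    rw [← wreath_BM a ha] at hL hM hN
    exact Submodule.subset_span ⟨L, hL, M, hM, N, hN, rfl⟩
  -- Y(B, B, B) = a Δ(B, B, B)
  have hBBB : Y (Bm a) (Bm a) (Bm a) = (a : ℂ) • Delta (Bm a) (Bm a) (Bm a) := by
    funext x y z
    simp only [Y, Delta, Pi.smul_apply, smul_eq_mul]
    by_cases h1 : x.1 = y.1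
    · by_cases h2 : y.1 = z.1
      · have h3 : x.1 = z.1 := h1.trans h2
        have : ∀ u : Pt a, Bm a x u * Bm a y u * Bm a z u = Bm a z u := by
          intro u
          simp only [Bm, h1, h2]
          split_ifs <;> simp
        simp only [this, sum_block1]
        simp [Bm, h1, h2]
      · have : ∀ u : Pt a, Bm a x u * Bm a y u * Bm a z u = 0 := by
          intro u
          simp only [Bm]
          by_cases h4 : y.1 = u.1
          · have : z.1 ≠ u.1 := fun h => h2 (h4.trans h.symm)
            simp [this]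
          · simp [h4]
        simp only [this]
        simp [Bm, h2]
    · have : ∀ u : Pt a, Bm a x u * Bm a y u * Bm a z u = 0 := by
        intro u
        simp only [Bm]
        by_cases h4 : x.1 = u.1
        · have : y.1 ≠ u.1 := fun h => h1 (h4.trans h.symm)
          simp [this]
        · simp [h4]
      simp only [this]
      simp [Bm, h1]
  apply le_antisymm
  · apply Submodule.span_le.2
    rintro _ ⟨L, hL, M, hM, N, hN, rfl⟩
    rw [wreath_BM] at hL hM hN
    refine tri_mem a Delta _ ?_ ?_ ?_ ?_ hL hM hN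
    · intros; funext x y z
      simp only [Delta, Matrix.add_apply, Matrix.smul_apply, Pi.add_apply, Pi.smul_apply, smul_eq_mul]
      ring
    · intros; funext x y z
      simp only [Delta, Matrix.add_apply, Matrix.smul_apply, Pi.add_apply, Pi.smul_apply, smul_eq_mul]
      ring
    · intros; funext x y z
      simp only [Delta, Matrix.add_apply, Matrix.smul_apply, Pi.add_apply, Pi.smul_apply, smul_eq_mul]
      ring
    · intro L hL M hM N hN
      -- one of the three is J
      by_cases cL : L = allOnes (Pt a)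
      · have : Delta L M N = Y M 1 N := by
          funext x y z
          subst cL
          simp only [Delta, Y, allOnes, Matrix.one_apply]
          rw [Finset.sum_eq_single y]
          · simp [idem_entry a hN y z]
          · intro b _ hb; simp [Ne.symm hb]
          · simp
        rw [this]
        exact ymem _ (mem_of_gen a hM) _ (one_mem a) _ (mem_of_gen a hN)
      by_cases cM : M = allOnes (Pt a)
      · have : Delta L M N = Y L N 1 := by
          funext x y z
          subst cM
          simp only [Delta, Y, allOnes, Matrix.one_apply]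
          rw [Finset.sum_eq_single z]
          · simp
          · intro b _ hb; simp [Ne.symm hb]
          · simp
        rw [this]
        exact ymem _ (mem_of_gen a hL) _ (mem_of_gen a hN) _ (one_mem a)
      by_cases cN : N = allOnes (Pt a)
      · have : Delta L M N = Y 1 M L := by
          funext x y z
          subst cN
          simp only [Delta, Y, allOnes, Matrix.one_apply]
          rw [Finset.sum_eq_single x]
          · simp [idem_entry a hM x y, idem_entry a hL x z, mul_comm]
          · intro b _ hb; simp [Ne.symm hb]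
          · simp
        rw [this]
        exact ymem _ (one_mem a) _ (mem_of_gen a hM) _ (mem_of_gen a hL)
      by_cases dL : L = 1
      · have : Delta L M N = Y 1 (had a M N) 1 := by
          funext x y z
          subst dL
          simp only [Delta, Y, Matrix.one_apply, had]
          by_cases h : x = z
          · subst h
            rw [Finset.sum_eq_single x]
            · simp [idem_entry a hM x y]
            · intro b _ hb; simp [Ne.symm hb]
            · simp
          · rw [if_neg h, zero_mul, zero_mul]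
            symm
            apply Finset.sum_eq_zero
            intro u _
            by_cases h1 : x = u
            · subst h1; simp [Ne.symm h]
            · simp [h1]
        rw [this]
        exact ymem _ (one_mem a) _ (had_mem a hM hN) _ (one_mem a)
      by_cases dM : M = 1
      · have : Delta L M N = Y 1 1 (had a L N) := by
          funext x y z
          subst dM
          simp only [Delta, Y, Matrix.one_apply, had]
          by_cases h : x = y
          · subst h
            rw [Finset.sum_eq_single x]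
            · simp [idem_entry a hL x z, idem_entry a hN x z]
            · intro b _ hb; simp [Ne.symm hb]
            · simp
          · rw [if_neg h, mul_zero, zero_mul]
            symm
            apply Finset.sum_eq_zero
            intro u _
            by_cases h1 : x = u
            · subst h1; simp [Ne.symm h]
            · simp [h1]
        rw [this]
        exact ymem _ (one_mem a) _ (one_mem a) _ (had_mem a hL hN)
      by_cases dN : N = 1
      · have : Delta L M N = Y (had a L M) 1 1 := by
          funext x y z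
          subst dN
          simp only [Delta, Y, Matrix.one_apply, had]
          by_cases h : y = z
          · subst h
            rw [Finset.sum_eq_single y]
            · simp
            · intro b _ hb; simp [Ne.symm hb]
            · simp
          · rw [if_neg h, mul_zero]
            symm
            apply Finset.sum_eq_zero
            intro u _
            by_cases h1 : y = u
            · subst h1; simp [Ne.symm h]
            · simp [h1]
        rw [this]
        exact ymem _ (had_mem a hL hM) _ (one_mem a) _ (one_mem a)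
      have eL : L = Bm a := by rcases hL with h | h | h <;> [exact absurd h dL; exact h; exact absurd h cL]
      have eM : M = Bm a := by rcases hM with h | h | h <;> [exact absurd h dM; exact h; exact absurd h cM]
      have eN : N = Bm a := by rcases hN with h | h | h <;> [exact absurd h dN; exact h; exact absurd h cN]
      subst eL; subst eM; subst eN
      have : Delta (Bm a) (Bm a) (Bm a) = (a : ℂ)⁻¹ • Y (Bm a) (Bm a) (Bm a) := by
        rw [hBBB, smul_smul, inv_mul_cancel₀ ha0, one_smul]
      rw [this]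
      exact Submodule.smul_mem _ _ (ymem _ (B_mem a) _ (B_mem a) _ (B_mem a))
  · apply Submodule.span_le.2
    rintro _ ⟨L, hL, M, hM, N, hN, rfl⟩
    rw [wreath_BM] at hL hM hN
    refine tri_mem a Y _ ?_ ?_ ?_ ?_ hL hM hN
    · intros; funext x y z
      simp only [Y, Matrix.add_apply, Matrix.smul_apply, Pi.add_apply, Pi.smul_apply, smul_eq_mul,
        Finset.mul_sum, ← Finset.sum_add_distrib]
      exact Finset.sum_congr rfl fun u _ => by ring
    · intros; funext x y z
      simp only [Y, Matrix.add_apply, Matrix.smul_apply, Pi.add_apply, Pi.smul_apply, smul_eq_mul,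
        Finset.mul_sum, ← Finset.sum_add_distrib]
      exact Finset.sum_congr rfl fun u _ => by ring
    · intros; funext x y z
      simp only [Y, Matrix.add_apply, Matrix.smul_apply, Pi.add_apply, Pi.smul_apply, smul_eq_mul,
        Finset.mul_sum, ← Finset.sum_add_distrib]
      exact Finset.sum_congr rfl fun u _ => by ring
    · intro L hL M hM N hN
      by_cases cL : L = allOnes (Pt a)
      · have : Y L M N = Delta (allOnes (Pt a)) (allOnes (Pt a)) (M * N) := by
          funext x y z
          subst cL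
          simp only [Delta, Y, allOnes, Matrix.mul_apply, one_mul]
          exact Finset.sum_congr rfl fun u _ => by rw [idem_entry a hN z u]
        rw [this]
        exact dmem _ (J_mem a) _ (J_mem a) _ (mul_mem a (mem_of_gen a hM) (mem_of_gen a hN))
      by_cases cM : M = allOnes (Pt a)
      · have : Y L M N = Delta (L * N) (allOnes (Pt a)) (allOnes (Pt a)) := by
          funext x y z
          subst cM
          simp only [Delta, Y, allOnes, Matrix.mul_apply, mul_one]
          exact Finset.sum_congr rfl fun u _ => by rw [idem_entry a hN z u]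
        rw [this]
        exact dmem _ (mul_mem a (mem_of_gen a hL) (mem_of_gen a hN)) _ (J_mem a) _ (J_mem a)
      by_cases cN : N = allOnes (Pt a)
      · have : Y L M N = Delta (allOnes (Pt a)) (L * M) (allOnes (Pt a)) := by
          funext x y z
          subst cN
          simp only [Delta, Y, allOnes, Matrix.mul_apply, mul_one, one_mul]
          exact Finset.sum_congr rfl fun u _ => by rw [idem_entry a hM y u]
        rw [this]
        exact dmem _ (J_mem a) _ (mul_mem a (mem_of_gen a hL) (mem_of_gen a hM)) _ (J_mem a)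
      by_cases dL : L = 1
      · have : Y L M N = Delta N M (allOnes (Pt a)) := by
          funext x y z
          subst dL
          simp only [Delta, Y, Matrix.one_apply, allOnes]
          rw [Finset.sum_eq_single x]
          · simp [idem_entry a hM x y, idem_entry a hN x z, mul_comm]
          · intro b _ hb; simp [Ne.symm hb]
          · simp
        rw [this]
        exact dmem _ (mem_of_gen a hN) _ (mem_of_gen a hM) _ (J_mem a)
      by_cases dM : M = 1
      · have : Y L M N = Delta (allOnes (Pt a)) L N := by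
          funext x y z
          subst dM
          simp only [Delta, Y, Matrix.one_apply, allOnes]
          rw [Finset.sum_eq_single y]
          · simp [idem_entry a hN y z]
          · intro b _ hb; simp [Ne.symm hb]
          · simp
        rw [this]
        exact dmem _ (J_mem a) _ (mem_of_gen a hL) _ (mem_of_gen a hN)
      by_cases dN : N = 1
      · have : Y L M N = Delta L (allOnes (Pt a)) M := by
          funext x y z
          subst dN
          simp only [Delta, Y, Matrix.one_apply, allOnes]
          rw [Finset.sum_eq_single z]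
          · simp
          · intro b _ hb; simp [Ne.symm hb]
          · simp
        rw [this]
        exact dmem _ (mem_of_gen a hL) _ (J_mem a) _ (mem_of_gen a hM)
      have eL : L = Bm a := by rcases hL with h | h | h <;> [exact absurd h dL; exact h; exact absurd h cL]
      have eM : M = Bm a := by rcases hM with h | h | h <;> [exact absurd h dM; exact h; exact absurd h cM]
      have eN : N = Bm a := by rcases hN with h | h | h <;> [exact absurd h dN; exact h; exact absurd h cN]
      subst eL; subst eM; subst eN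
      rw [hBBB]
      exact Submodule.smul_mem _ _ (dmem _ (B_mem a) _ (B_mem a) _ (B_mem a))

end R556.SM
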