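import Pool.Agent.R556.SM.Wreath

/-! MP_a35cac_co: every spin model in the Bose-Mesner algebra of `K_a ≀ K_a`, `a ≥ 3`, is a Potts
model. -/

set_option autoImplicit false

open Matrix

namespace R556.SM

variable (a : ℕ)

lemma sum_pt (p : Pt a) : ∑ u : Pt a, (if u = p then (1 : ℂ) else 0) = 1 := by simp

lemma sum_bl (i : Fin a) : ∑ u : Pt a, (if u.1 = i then (1 : ℂ) else 0) = a := by
  rw [Fintype.sum_prod_type, Finset.sum_comm]
  simp

/-- the value of the matrix -/
noncomputable def val (x0 y0 t : ℂ) (u v : Pt a) : ℂ :=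
  if u = v then x0 else if u.1 = v.1 then y0 else t

lemma entries (r s t : ℂ) (u v : Pt a) :
    (r • (1 : Matrix (Pt a) (Pt a) ℂ) + s • Bm a + t • allOnes (Pt a)) u v =
      val a (r + s + t) (s + t) t u v := by
  simp only [val, Matrix.add_apply, Matrix.smul_apply, Matrix.one_apply, Bm, allOnes, smul_eq_mul]
  by_cases h : u = v
  · subst h; simp
  · by_cases h' : u.1 = v.1 <;> simp [h, h']

lemma val_self (x0 y0 t : ℂ) (u : Pt a) : val a x0 y0 t u u = x0 := by simp [val]

lemma val_bl (x0 y0 t : ℂ) {u v : Pt a} (h : u ≠ v) (h' : u.1 = v.1) : val a x0 y0 t u v = y0 := by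
  simp [val, h, h']

lemma val_out (x0 y0 t : ℂ) {u v : Pt a} (h' : u.1 ≠ v.1) : val a x0 y0 t u v = t := by
  have h : u ≠ v := fun h => h' (congrArg Prod.fst h)
  simp [val, h, h']

/-- the value as a combination of indicators -/
lemma val_ind (x0 y0 t : ℂ) (u v : Pt a) : val a x0 y0 t u v =
    t + (y0 - t) * (if v.1 = u.1 then (1 : ℂ) else 0) + (x0 - y0) * (if v = u then (1 : ℂ) else 0) := by
  by_cases h : v = u
  · subst h; simp [val_self]
  · by_cases h' : v.1 = u.1
    · rw [val_bl a x0 y0 t (Ne.symm h) h'.symm]; simp [h, h']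
    · rw [val_out a x0 y0 t (Ne.symm h')]; simp [h, h']

theorem core (x0 y0 t D : ℂ) (x0ne : x0 ≠ 0) (y0ne : y0 ≠ 0) (tne : t ≠ 0) (p q w o : Pt a)
    (npq : p ≠ q) (npw : p ≠ w) (nqw : q ≠ w) (hq : q.1 = p.1) (hw : w.1 = p.1) (ho : o.1 ≠ p.1)
    (ha0 : (a : ℂ) ≠ 0)
    (h2 : ∑ x, val a x0 y0 t p x / val a x0 y0 t q x = 0)
    (h3 : ∑ x, val a x0 y0 t p x * val a x0 y0 t q x / val a x0 y0 t w x = D * (y0 / (y0 * y0)))
    (h4 : ∑ x, val a x0 y0 t p x * val a x0 y0 t o x / val a x0 y0 t q x = D * (t / (y0 * t))) :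
    y0 = t := by
  have hcard : (Fintype.card (Pt a) : ℂ) = a * a := by simp [Fintype.card_prod]
  have npo : p ≠ o := fun h => ho (by rw [h])
  have nqo : q ≠ o := fun h => ho (by rw [← h, hq])
  have hqo : q.1 ≠ o.1 := fun h => ho (by rw [← h, hq])
  have T2 : (a : ℂ) * a + (x0 / y0 - 1) + (y0 / x0 - 1) = 0 := by
    have hF : ∀ u : Pt a, val a x0 y0 t p u / val a x0 y0 t q u =
        1 + (x0 / y0 - 1) * (if u = p then (1 : ℂ) else 0) +
          (y0 / x0 - 1) * (if u = q then (1 : ℂ) else 0) := by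
      intro u
      by_cases e1 : u = p
      · rw [e1, val_self, val_bl a x0 y0 t (Ne.symm npq) hq]
        simp [npq]
      · by_cases e2 : u = q
        · rw [e2, val_self, val_bl a x0 y0 t npq hq.symm]
          simp [Ne.symm npq]
        · by_cases e3 : u.1 = p.1
          · rw [val_bl a x0 y0 t (Ne.symm e1) e3.symm, val_bl a x0 y0 t (Ne.symm e2) (hq.trans e3.symm),
              div_self y0ne]
            simp [e1, e2]
          · rw [val_out a x0 y0 t (Ne.symm e3), val_out a x0 y0 t (fun h => e3 (h.symm.trans hq)),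
              div_self tne]
            simp [e1, e2]
    rw [Finset.sum_congr rfl fun u _ => hF u] at h2
    simp only [Finset.sum_add_distrib, ← Finset.mul_sum, sum_pt] at h2
    rw [Finset.sum_const, Finset.card_univ, nsmul_eq_mul, hcard] at h2
    linear_combination h2
  have E2 : (a : ℂ) * a * t + (y0 - t) * a + 2 * (x0 - y0) + (y0 * y0 / x0 - y0) = D / y0 := by
    have hF : ∀ u : Pt a, val a x0 y0 t p u * val a x0 y0 t q u / val a x0 y0 t w u =
        t + (y0 - t) * (if u.1 = p.1 then (1 : ℂ) else 0) +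
          (x0 - y0) * (if u = p then (1 : ℂ) else 0) + (x0 - y0) * (if u = q then (1 : ℂ) else 0) +
          (y0 * y0 / x0 - y0) * (if u = w then (1 : ℂ) else 0) := by
      intro u
      by_cases e1 : u = p
      · rw [e1, val_self, val_bl a x0 y0 t (Ne.symm npq) hq, val_bl a x0 y0 t (Ne.symm npw) hw]
        simp [npq, npw]
        field_simp
      · by_cases e2 : u = q
        · rw [e2, val_self, val_bl a x0 y0 t npq hq.symm,
            val_bl a x0 y0 t (Ne.symm nqw) (hw.trans hq.symm)]
          simp [Ne.symm npq, nqw, hq]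
          field_simp
        · by_cases e3 : u = w
          · rw [e3, val_self, val_bl a x0 y0 t npw hw.symm, val_bl a x0 y0 t nqw (hq.trans hw.symm)]
            simp [Ne.symm npw, Ne.symm nqw, hw]
          · by_cases e4 : u.1 = p.1
            · rw [val_bl a x0 y0 t (Ne.symm e1) e4.symm, val_bl a x0 y0 t (Ne.symm e2) (hq.trans e4.symm),
                val_bl a x0 y0 t (Ne.symm e3) (hw.trans e4.symm)]
              simp [e1, e2, e3, e4]
            · rw [val_out a x0 y0 t (Ne.symm e4), val_out a x0 y0 t (fun h => e4 (h.symm.trans hq)),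
                val_out a x0 y0 t (fun h => e4 (h.symm.trans hw))]
              simp [e1, e2, e3, e4]
    rw [Finset.sum_congr rfl fun u _ => hF u] at h3
    simp only [Finset.sum_add_distrib, ← Finset.mul_sum, sum_pt, sum_bl] at h3
    rw [Finset.sum_const, Finset.card_univ, nsmul_eq_mul, hcard] at h3
    have h' : D * (y0 / (y0 * y0)) = D / y0 := by field_simp
    rw [h'] at h3
    linear_combination h3
  have E3 : (a : ℂ) * a * t + (x0 * t / y0 - t) + (y0 * t / x0 - t) + (y0 - t) * a + (x0 - y0) =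
      D / y0 := by
    have hF : ∀ u : Pt a, val a x0 y0 t p u * val a x0 y0 t o u / val a x0 y0 t q u =
        t + (x0 * t / y0 - t) * (if u = p then (1 : ℂ) else 0) +
          (y0 * t / x0 - t) * (if u = q then (1 : ℂ) else 0) +
          (y0 - t) * (if u.1 = o.1 then (1 : ℂ) else 0) +
          (x0 - y0) * (if u = o then (1 : ℂ) else 0) := by
      intro u
      by_cases e1 : u = p
      · rw [e1, val_self, val_out a x0 y0 t ho, val_bl a x0 y0 t (Ne.symm npq) hq]
        simp [npq, npo, Ne.symm ho]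
      · by_cases e2 : u = q
        · rw [e2, val_self, val_bl a x0 y0 t npq hq.symm, val_out a x0 y0 t (Ne.symm hqo)]
          simp [Ne.symm npq, nqo, hqo]
        · by_cases e3 : u = o
          · rw [e3, val_self, val_out a x0 y0 t (Ne.symm ho), val_out a x0 y0 t hqo]
            simp [Ne.symm npo, Ne.symm nqo]
            field_simp
          · by_cases e4 : u.1 = p.1
            · have e5 : u.1 ≠ o.1 := fun h => ho (h.symm.trans e4)
              rw [val_bl a x0 y0 t (Ne.symm e1) e4.symm, val_out a x0 y0 t (Ne.symm e5),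
                val_bl a x0 y0 t (Ne.symm e2) (hq.trans e4.symm)]
              simp [e1, e2, e3, e5]
              field_simp
            · by_cases e5 : u.1 = o.1
              · rw [val_out a x0 y0 t (Ne.symm e4), val_bl a x0 y0 t (Ne.symm e3) e5.symm,
                  val_out a x0 y0 t (fun h => e4 (h.symm.trans hq))]
                simp [e1, e2, e3, e5]
                field_simp
              · rw [val_out a x0 y0 t (Ne.symm e4), val_out a x0 y0 t (Ne.symm e5),
                  val_out a x0 y0 t (fun h => e4 (h.symm.trans hq))]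
                simp [e1, e2, e3, e5]
    rw [Finset.sum_congr rfl fun u _ => hF u] at h4
    simp only [Finset.sum_add_distrib, ← Finset.mul_sum, sum_pt, sum_bl] at h4
    rw [Finset.sum_const, Finset.card_univ, nsmul_eq_mul, hcard] at h4
    have h' : D * (t / (y0 * t)) = D / y0 := by field_simp
    rw [h'] at h4
    linear_combination h4
  have h5 : (a : ℂ) * a * (t - y0) = 0 := by
    have h5 := E2.trans E3.symm
    have e1 : x0 * t / y0 = t * (x0 / y0) := by ring
    have e2 : y0 * t / x0 = t * (y0 / x0) := by ring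
    have e3 : y0 * y0 / x0 = y0 * (y0 / x0) := by ring
    have e4 : x0 = y0 * (x0 / y0) := by field_simp
    rw [e1, e2, e3] at h5
    linear_combination h5 + (t - y0) * T2 - e4
  rcases mul_eq_zero.1 h5 with h | h
  · exact absurd h (mul_ne_zero ha0 ha0)
  · linear_combination -h

theorem only_potts (ha : 3 ≤ a) (W : Matrix (Pt a) (Pt a) ℂ) (hW : W ∈ BJspan a)
    (hS : IsSpinModel W) : ∃ x y : ℂ, W = x • (1 : Matrix (Pt a) (Pt a) ℂ) + y • allOnes (Pt a) := by
  obtain ⟨r, s, t, rfl⟩ := (mem_BJ a).1 hW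
  obtain ⟨-, hne, h2, D, hD, h3⟩ := hS
  have ha0 : (a : ℂ) ≠ 0 := by
    have : a ≠ 0 := by omega
    exact_mod_cast this
  obtain ⟨p, q, w, o, npq, npw, nqw, hq, hw, ho⟩ : ∃ p q w o : Pt a, p ≠ q ∧ p ≠ w ∧ q ≠ w ∧
      q.1 = p.1 ∧ w.1 = p.1 ∧ o.1 ≠ p.1 := by
    refine ⟨(⟨0, by omega⟩, ⟨0, by omega⟩), (⟨0, by omega⟩, ⟨1, by omega⟩),
      (⟨0, by omega⟩, ⟨2, by omega⟩), (⟨1, by omega⟩, ⟨0, by omega⟩), ?_, ?_, ?_, rfl, rfl, ?_⟩
    all_goals simp
  simp only [entries] at hne h2 h3
  have x0ne : r + s + t ≠ 0 := by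
    have := hne p p
    rwa [val_self] at this
  have y0ne : s + t ≠ 0 := by
    have := hne p q
    rwa [val_bl a _ _ _ npq hq.symm] at this
  have tne : t ≠ 0 := by
    have := hne p o
    rwa [val_out a _ _ _ (Ne.symm ho)] at this
  have g2 := h2 p q
  rw [if_neg npq] at g2
  have g3 := h3 p q w
  rw [val_bl a _ _ _ npq hq.symm, val_bl a _ _ _ npw hw.symm,
    val_bl a _ _ _ nqw (hq.trans hw.symm)] at g3
  have g4 := h3 p o q
  have hoq : o.1 ≠ q.1 := fun h => ho (h.trans hq)
  rw [val_out a _ _ _ (Ne.symm ho), val_bl a _ _ _ npq hq.symm, val_out a _ _ _ hoq] at g4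
  have key := core a (r + s + t) (s + t) t D x0ne y0ne tne p q w o npq npw nqw hq hw ho ha0 g2 g3 g4
  have hs : s = 0 := by linear_combination key
  refine ⟨r, t, ?_⟩
  rw [hs, zero_smul, add_zero]

end R556.SM
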