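import Pool.Agent.R556.SM.Defs

/-! MP_a35cac_co: the Potts model. -/

set_option autoImplicit false

open Matrix

namespace R556.SM

/-- the delta function -/
def e {X : Type} [DecidableEq X] (a u : X) : ℂ := if a = u then 1 else 0

section
variable {X : Type} [Fintype X] [DecidableEq X]

lemma sum_e (a : X) : ∑ u, e a u = 1 := by simp [e]

lemma sum_ee (a b : X) : ∑ u, e a u * e b u = e a b := by
  simp only [e]
  simp [Finset.sum_ite_eq]

lemma sum_eee (a b c : X) : ∑ u, e a u * e b u * e c u = e a b * e a c := by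
  simp only [e]
  by_cases h : a = b
  · subst h
    by_cases h' : a = c
    · subst h'; simp
    · simp [h']
  · simp [h]
    rintro rfl
    exact h

lemma sum3 (β κ β' l : ℂ) (a b c : X) :
    ∑ u, (β + κ * e a u) * (β + κ * e b u) * (β' + l * e c u) =
      (Fintype.card X : ℂ) * (β * β * β') + 2 * (β * κ * β') + β * β * l + κ * κ * β' * e a b +
        β * κ * l * (e a c + e b c) + κ * κ * l * (e a b * e a c) := by
  have h : ∀ u : X, (β + κ * e a u) * (β + κ * e b u) * (β' + l * e c u) =
      β * β * β' + (β * κ * β') * e a u + (β * κ * β') * e b u + (β * β * l) * e c u +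
      (κ * κ * β') * (e a u * e b u) + (β * κ * l) * (e a u * e c u) +
      (β * κ * l) * (e b u * e c u) + (κ * κ * l) * (e a u * e b u * e c u) := by
    intro u; ring
  simp only [h, Finset.sum_add_distrib, ← Finset.mul_sum, sum_e, sum_ee, sum_eee]
  rw [Finset.sum_const, Finset.card_univ, nsmul_eq_mul]
  ring

lemma sum2 (β κ β' l : ℂ) (a b : X) :
    ∑ u, (β + κ * e a u) * (β' + l * e b u) =
      (Fintype.card X : ℂ) * (β * β') + κ * β' + β * l + κ * l * e a b := by
  have h : ∀ u : X, (β + κ * e a u) * (β' + l * e b u) =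
      β * β' + (κ * β') * e a u + (β * l) * e b u + (κ * l) * (e a u * e b u) := by
    intro u; ring
  simp only [h, Finset.sum_add_distrib, ← Finset.mul_sum, sum_e, sum_ee]
  rw [Finset.sum_const, Finset.card_univ, nsmul_eq_mul]
  ring

/-- `W = (α - β) I + β J` with `α = -A^3`, `β = A^{-1}`, `|X| = (A^2 + A^{-2})^2` -/
theorem potts_aux (A B : ℂ) (hAB : A * B = 1) (hn : (Fintype.card X : ℂ) = (A ^ 2 + B ^ 2) ^ 2) :
    IsSpinModel ((-A ^ 3 - B) • (1 : Matrix X X ℂ) + B • allOnes X) := by
  have hA : A ≠ 0 := left_ne_zero_of_mul_eq_one hAB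
  have hBA : B = 1 / A := by field_simp; linear_combination hAB
  have hB : B ≠ 0 := right_ne_zero_of_mul_eq_one hAB
  have hW : ∀ a u : X, ((-A ^ 3 - B) • (1 : Matrix X X ℂ) + B • allOnes X) a u =
      B + (-A ^ 3 - B) * e a u := by
    intro a u
    simp only [e, allOnes, Matrix.add_apply, Matrix.smul_apply, Matrix.one_apply, smul_eq_mul]
    ring
  have hW' : ∀ a u : X, (B + (-A ^ 3 - B) * e a u)⁻¹ = A + (-B ^ 3 - A) * e a u := by
    intro a u
    by_cases h : a = u
    · simp only [e, h, if_true]
      rw [hBA]; field_simp; ring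
    · simp only [e, h, if_false]
      rw [hBA]; field_simp; ring
  have hne : ∀ a u : X, B + (-A ^ 3 - B) * e a u ≠ 0 := by
    intro a u
    by_cases h : a = u
    · simp only [e, h, if_true]
      have : B + (-A ^ 3 - B) * 1 = -A ^ 3 := by ring
      rw [this]
      exact neg_ne_zero.2 (pow_ne_zero _ hA)
    · simp only [e, h, if_false]
      simpa using hB
  refine ⟨?_, ?_, ?_, ?_⟩
  · intro a b
    rw [hW, hW]
    have : e a b = e b a := by simp only [e, eq_comm]
    rw [this]
  · intro a b
    rw [hW]
    exact hne a b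
  · intro a b
    simp only [hW, div_eq_mul_inv, hW']
    rw [sum2, hn]
    by_cases h : a = b
    · simp only [e, h, if_true]
      rw [hBA]; field_simp; ring
    · simp only [e, h, if_false]
      rw [hBA]; field_simp; ring
  · refine ⟨-(A ^ 2 + B ^ 2), by rw [hn]; ring, ?_⟩
    intro a b c
    simp only [hW, div_eq_mul_inv, mul_inv, hW']
    rw [sum3, hn]
    by_cases h : a = b
    · subst h
      by_cases h' : a = c
      · subst h'
        simp only [e, if_true]
        rw [hBA]; field_simp; ring
      · simp only [e, h', if_true, if_false]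
        rw [hBA]; field_simp; ring
    · by_cases h' : a = c
      · subst h'
        simp only [e, h, Ne.symm h, if_true, if_false]
        rw [hBA]; field_simp; ring
      · by_cases h'' : b = c
        · subst h''
          simp only [e, h, if_true, if_false]
          rw [hBA]; field_simp; ring
        · simp only [e, h, h', h'', if_false]
          rw [hBA]; field_simp; ring

end

/-- Potts models exist on every finite set. -/
theorem potts (X : Type) [Fintype X] [DecidableEq X] :
    ∃ x y : ℂ, IsSpinModel (x • (1 : Matrix X X ℂ) + y • allOnes X) := by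
  obtain ⟨D, hD⟩ := IsAlgClosed.exists_pow_nat_eq (Fintype.card X : ℂ) (n := 2) (by norm_num)
  obtain ⟨s, hs⟩ := IsAlgClosed.exists_pow_nat_eq (D ^ 2 - 4) (n := 2) (by norm_num)
  obtain ⟨A, hA⟩ := IsAlgClosed.exists_pow_nat_eq ((-D + s) / 2) (n := 2) (by norm_num)
  have h1 : A ^ 4 + D * A ^ 2 + 1 = 0 := by
    have : A ^ 4 = (A ^ 2) ^ 2 := by ring
    rw [this, hA]
    linear_combination hs / 4
  have hA0 : A ≠ 0 := by
    rintro rfl
    norm_num at h1
  have h2 : D = -(A ^ 2 + A⁻¹ ^ 2) := by
    field_simp
    linear_combination h1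
  refine ⟨_, _, potts_aux A A⁻¹ (mul_inv_cancel₀ hA0) ?_⟩
  rw [← hD, h2]
  ring

end R556.SM
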