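import Pool.Agent.R556.SM.Defs

/-! MP_a35cac_co: the scheme `K_a ≀ K_a`. -/

set_option autoImplicit false

open Matrix

namespace R556.SM

section
variable (a : ℕ)

/-- the point set -/
abbrev Pt (a : ℕ) : Type := Fin a × Fin a

/-- the relation index -/
def wrel (x y : Pt a) : Fin 3 := if x = y then 0 else if x.1 = y.1 then 1 else 2

/-- the block matrix -/
def Bm (a : ℕ) : Matrix (Pt a) (Pt a) ℂ := fun x y => if x.1 = y.1 then 1 else 0

lemma sum_block (x y : Pt a) : ∑ z : Pt a, Bm a x z * Bm a z y = a * Bm a x y := by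
  simp only [Bm]
  rw [Fintype.sum_prod_type]
  by_cases h : x.1 = y.1
  · simp [h]
  · simp [h]

lemma sum_block1 (x : Pt a) : ∑ z : Pt a, Bm a x z = a := by
  simp only [Bm]
  rw [Fintype.sum_prod_type, Finset.sum_comm]
  simp

lemma BB : Bm a * Bm a = (a : ℂ) • Bm a := by
  ext x y
  rw [Matrix.mul_apply, sum_block]
  rfl

lemma BJ : Bm a * allOnes (Pt a) = (a : ℂ) • allOnes (Pt a) := by
  ext x y
  rw [Matrix.mul_apply]
  simp only [allOnes, mul_one, sum_block1, Matrix.smul_apply, smul_eq_mul]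

lemma Bsymm (x y : Pt a) : Bm a x y = Bm a y x := by
  simp only [Bm, eq_comm]

lemma JB : allOnes (Pt a) * Bm a = (a : ℂ) • allOnes (Pt a) := by
  ext x y
  rw [Matrix.mul_apply]
  simp only [allOnes, one_mul, Bsymm a _ y, sum_block1, Matrix.smul_apply, smul_eq_mul, mul_one]

lemma JJ : allOnes (Pt a) * allOnes (Pt a) = ((a : ℂ) * a) • allOnes (Pt a) := by
  ext x y
  rw [Matrix.mul_apply]
  simp [allOnes]

/-- the span of `I, B, J` -/
def BJspan (a : ℕ) : Submodule ℂ (Matrix (Pt a) (Pt a) ℂ) :=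
  Submodule.span ℂ {1, Bm a, allOnes (Pt a)}

lemma mem_BJ {M : Matrix (Pt a) (Pt a) ℂ} : M ∈ BJspan a ↔
    ∃ r s t : ℂ, r • 1 + s • Bm a + t • allOnes (Pt a) = M := by
  unfold BJspan
  rw [Submodule.mem_span_triple]

/-- entries of matrices in the span depend only on the relation -/
lemma entry_eq {M : Matrix (Pt a) (Pt a) ℂ} (h : M ∈ BJspan a) {x y x' y' : Pt a}
    (hr : wrel a x y = wrel a x' y') : M x y = M x' y' := by
  obtain ⟨r, s, t, rfl⟩ := (mem_BJ a).1 h
  have h1 : (1 : Matrix (Pt a) (Pt a) ℂ) x y = (1 : Matrix (Pt a) (Pt a) ℂ) x' y' ∧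
      Bm a x y = Bm a x' y' := by
    unfold wrel at hr
    by_cases e1 : x = y
    · by_cases e2 : x' = y'
      · subst e1; subst e2; simp [Bm]
      · exfalso
        rw [if_pos e1, if_neg e2] at hr
        split_ifs at hr <;> simp at hr
    · by_cases e2 : x' = y'
      · exfalso
        rw [if_neg e1, if_pos e2] at hr
        split_ifs at hr <;> simp at hr
      · rw [if_neg e1, if_neg e2] at hr
        by_cases e3 : x.1 = y.1 <;> by_cases e4 : x'.1 = y'.1 <;>
          simp [Bm, e1, e2, e3, e4, Matrix.one_apply] at hr ⊢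
  simp only [Matrix.add_apply, Matrix.smul_apply, h1.1, h1.2, allOnes]

/-- the span is closed under multiplication -/
lemma mul_mem {M N : Matrix (Pt a) (Pt a) ℂ} (hM : M ∈ BJspan a) (hN : N ∈ BJspan a) :
    M * N ∈ BJspan a := by
  obtain ⟨r, s, t, rfl⟩ := (mem_BJ a).1 hM
  obtain ⟨r', s', t', rfl⟩ := (mem_BJ a).1 hN
  rw [mem_BJ]
  refine ⟨r * r', r * s' + s * r' + s * s' * a,
    r * t' + t * r' + s * t' * a + t * s' * a + t * t' * (a * a), ?_⟩
  simp only [add_mul, mul_add, Matrix.smul_mul, Matrix.mul_smul, BB, BJ, JB, JJ, one_mul, mul_one,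
    smul_smul, add_smul]
  simp only [mul_comm, mul_left_comm, mul_assoc]
  abel

/-- adjacency matrices -/
def wA (i : Fin 3) : Matrix (Pt a) (Pt a) ℂ := fun x y => if wrel a x y = i then 1 else 0

lemma wA0 : wA a 0 = 1 := by
  ext x y
  simp only [wA, wrel, Matrix.one_apply]
  by_cases h : x = y
  · simp [h]
  · by_cases h' : x.1 = y.1 <;> simp [h, h']

lemma wA1 : wA a 1 = Bm a - 1 := by
  ext x y
  simp only [wA, wrel, Matrix.sub_apply, Matrix.one_apply, Bm]
  by_cases h : x = y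
  · simp [h]
  · by_cases h' : x.1 = y.1 <;> simp [h, h']

lemma wA2 : wA a 2 = allOnes (Pt a) - Bm a := by
  ext x y
  simp only [wA, wrel, Matrix.sub_apply, allOnes, Bm]
  by_cases h : x = y
  · simp [h]
  · by_cases h' : x.1 = y.1 <;> simp [h, h']

lemma one_mem : (1 : Matrix (Pt a) (Pt a) ℂ) ∈ BJspan a :=
  Submodule.subset_span (by simp)

lemma B_mem : Bm a ∈ BJspan a := Submodule.subset_span (by simp)

lemma J_mem : allOnes (Pt a) ∈ BJspan a := Submodule.subset_span (by simp)

lemma wA_mem (i : Fin 3) : wA a i ∈ BJspan a := by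
  fin_cases i
  · show wA a 0 ∈ BJspan a
    rw [wA0]; exact one_mem a
  · show wA a 1 ∈ BJspan a
    rw [wA1]; exact Submodule.sub_mem _ (B_mem a) (one_mem a)
  · show wA a 2 ∈ BJspan a
    rw [wA2]; exact Submodule.sub_mem _ (J_mem a) (B_mem a)

lemma wrel_symm (x y : Pt a) : wrel a x y = wrel a y x := by
  unfold wrel
  simp only [eq_comm]

lemma card_eq (i j : Fin 3) (x y : Pt a) :
    ((Nat.card {z : Pt a // wrel a x z = i ∧ wrel a z y = j} : ℕ) : ℂ) = (wA a i * wA a j) x y := by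
  classical
  rw [Matrix.mul_apply, Nat.card_eq_fintype_card, Fintype.card_subtype]
  simp only [wA]
  rw [Finset.card_eq_sum_ones, Finset.sum_filter]
  push_cast
  apply Finset.sum_congr rfl
  intro z _
  by_cases h1 : wrel a x z = i <;> by_cases h2 : wrel a z y = j <;> simp [h1, h2]

/-- the scheme `K_a ≀ K_a` -/
noncomputable def wreath (ha : 2 ≤ a) : Scheme (Pt a) 2 where
  rel := wrel a
  nonempty := by
    intro i
    have z : 0 < a := by omega
    fin_cases i
    · exact ⟨(⟨0, z⟩, ⟨0, z⟩), (⟨0, z⟩, ⟨0, z⟩), by simp [wrel]⟩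
    · exact ⟨(⟨0, z⟩, ⟨0, z⟩), (⟨0, z⟩, ⟨1, ha⟩), by simp [wrel]⟩
    · exact ⟨(⟨0, z⟩, ⟨0, z⟩), (⟨1, ha⟩, ⟨0, z⟩), by simp [wrel]⟩
  diag := by
    intro x y
    unfold wrel
    by_cases h : x = y
    · simp [h]
    · by_cases h' : x.1 = y.1 <;> simp [h, h']
  symm := wrel_symm a
  p := fun i j k => by
    classical
    exact if h : ∃ q : Pt a × Pt a, wrel a q.1 q.2 = k then
      Nat.card {z : Pt a // wrel a h.choose.1 z = i ∧ wrel a z h.choose.2 = j} else 0
  card := by
    intro i j x y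
    have h : ∃ q : Pt a × Pt a, wrel a q.1 q.2 = wrel a x y := ⟨(x, y), rfl⟩
    rw [dif_pos h]
    have h1 := card_eq a i j x y
    have h2 := card_eq a i j h.choose.1 h.choose.2
    have h3 := entry_eq a (mul_mem a (wA_mem a i) (wA_mem a j)) h.choose_spec
    rw [← h2, ← h1] at h3
    exact_mod_cast h3.symm

lemma wreath_BM (ha : 2 ≤ a) : (wreath a ha).BM = BJspan a := by
  apply le_antisymm
  · apply Submodule.span_le.2
    rintro _ ⟨i, rfl⟩
    exact wA_mem a i
  · have h0 : wA a 0 ∈ (wreath a ha).BM := Submodule.subset_span ⟨0, rfl⟩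
    have h1 : wA a 1 ∈ (wreath a ha).BM := Submodule.subset_span ⟨1, rfl⟩
    have h2 : wA a 2 ∈ (wreath a ha).BM := Submodule.subset_span ⟨2, rfl⟩
    rw [wA0] at h0
    rw [wA1] at h1
    rw [wA2] at h2
    have hB : Bm a ∈ (wreath a ha).BM := by
      have := Submodule.add_mem _ h1 h0
      simpa using this
    have hJ : allOnes (Pt a) ∈ (wreath a ha).BM := by
      have := Submodule.add_mem _ h2 hB
      simpa using this
    apply Submodule.span_le.2
    rintro M hM
    rcases hM with rfl | rfl | rfl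
    · exact h0
    · exact hB
    · exact hJ

end

end R556.SM
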